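import Pool.Agent.Run7.h457.MT.Tann
import Pool.Agent.Run7.h615.MT.Common

/-!
# Project MT457, piece P11c: `Good` is closed under direct sums and duals
-/

set_option autoImplicit false
set_option linter.unusedSectionVars false

namespace Pool.Agent.Run7.h483.MT

open Matrix Filter Topology
open Run7.h457.MT Run7.h615.MT
open Run7.h475.MT (ext_map)

noncomputable section

/-- `Good` for matrices. -/
def GoodR {ι κ Γ : Type} [Fintype ι] [DecidableEq ι] [Fintype κ] [DecidableEq κ] [Group Γ] {ℓ : ℕ}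
    [Fact ℓ.Prime] (D D' : Matrix ι ι ℂ) (g : Γ → Matrix ι ι ℚ_[ℓ]) (h : ℂ → Matrix κ κ ℂ)
    (ρ : Γ → Matrix κ κ ℚ_[ℓ]) : Prop :=
  ∃ E : Matrix ι ι ℚ →ₗ[ℚ] Matrix κ κ ℚ,
    LieOn (mtLie D D') E ∧
    (∀ N : ℕ, ∃ Δ : Subgroup Γ, Δ.FiniteIndex ∧ ∀ σ ∈ Δ, NearOne N (ρ σ) ∧
      ∀ L, IsLog (g σ) L → IsLog (ρ σ) (ext ℚ_[ℓ] E L)) ∧
    ∃ (C : Type) (_ : Fintype C) (_ : DecidableEq C) (a b : C → ℤ) (e : C → Matrix κ κ ℂ),
      (∀ c c', e c * e c' = if c = c' then e c else 0) ∧ ∑ c, e c = 1 ∧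
      (∀ z : ℂ, z ≠ 0 → h z = ∑ c, (z ^ (-a c) * starRingEnd ℂ z ^ (-b c)) • e c) ∧
      ext ℂ E D = ∑ c, (a c : ℂ) • e c ∧ ext ℂ E D' = ∑ c, (b c : ℂ) • e c

theorem good_iff {ℓ : ℕ} [Fact ℓ.Prime] {Γ : Type} [Group Γ] {T : Type} [Fintype T]
    [DecidableEq T] {d : T → ℕ} (B : ∀ t, LLV (d t)) (W : ∀ t, (B t).Hodge)
    (G : ∀ t i, Γ →* Matrix (Fin ((B t).n i)) (Fin ((B t).n i)) ℚ_[ℓ]) (M : Obj ℓ Γ) :
    Good B W G M ↔ GoodR (D2 B W) (D2' B W) (fun σ => Matrix.blockDiagonal' fun t => G t 2 σ)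
      M.h (fun σ => M.ρ σ) := Iff.rfl

/-! ## Direct sums -/

section sum

variable {ι κ₁ κ₂ : Type} [Fintype ι] [DecidableEq ι] [Fintype κ₁] [DecidableEq κ₁]
  [Fintype κ₂] [DecidableEq κ₂]

/-- The block diagonal matrix with two blocks. -/
def blk {R : Type} [Zero R] (A : Matrix κ₁ κ₁ R) (B : Matrix κ₂ κ₂ R) :
    Matrix (κ₁ ⊕ κ₂) (κ₁ ⊕ κ₂) R :=
  Matrix.fromBlocks A 0 0 B

theorem blk_add {R : Type} [Ring R] (A A' : Matrix κ₁ κ₁ R) (B B' : Matrix κ₂ κ₂ R) :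
    blk (A + A') (B + B') = blk A B + blk A' B' := by
  unfold blk
  rw [Matrix.fromBlocks_add, add_zero, add_zero]

theorem blk_sub {R : Type} [Ring R] (A A' : Matrix κ₁ κ₁ R) (B B' : Matrix κ₂ κ₂ R) :
    blk (A - A') (B - B') = blk A B - blk A' B' := by
  rw [eq_sub_iff_add_eq, ← blk_add, sub_add_cancel, sub_add_cancel]

theorem blk_smul {R : Type} [Ring R] (c : R) (A : Matrix κ₁ κ₁ R) (B : Matrix κ₂ κ₂ R) :
    blk (c • A) (c • B) = c • blk A B := by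
  unfold blk
  rw [Matrix.fromBlocks_smul, smul_zero, smul_zero]

theorem blk_mul {R : Type} [Ring R] (A A' : Matrix κ₁ κ₁ R) (B B' : Matrix κ₂ κ₂ R) :
    blk (A * A') (B * B') = blk A B * blk A' B' := by
  unfold blk
  rw [Matrix.fromBlocks_multiply]
  simp

theorem blk_one {R : Type} [Ring R] :
    blk (1 : Matrix κ₁ κ₁ R) (1 : Matrix κ₂ κ₂ R) = 1 :=
  Matrix.fromBlocks_one

theorem blk_pow {R : Type} [Ring R] (A : Matrix κ₁ κ₁ R) (B : Matrix κ₂ κ₂ R) (n : ℕ) :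
    blk A B ^ n = blk (A ^ n) (B ^ n) := by
  induction n with
  | zero => rw [pow_zero, pow_zero, pow_zero, blk_one]
  | succ n ih => rw [pow_succ, pow_succ, pow_succ, blk_mul, ih]

theorem blk_sum {R C : Type} [Ring R] [Fintype C] (f : C → Matrix κ₁ κ₁ R)
    (g : C → Matrix κ₂ κ₂ R) : ∑ c, blk (f c) (g c) = blk (∑ c, f c) (∑ c, g c) := by
  classical
  induction (Finset.univ : Finset C) using Finset.induction_on with
  | empty => exact Matrix.fromBlocks_zero.symm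
  | insert c s hc ih =>
    rw [Finset.sum_insert hc, Finset.sum_insert hc, Finset.sum_insert hc, blk_add, ih]

/-- The direct sum of two linear maps. -/
def sumE (E₁ : Matrix ι ι ℚ →ₗ[ℚ] Matrix κ₁ κ₁ ℚ) (E₂ : Matrix ι ι ℚ →ₗ[ℚ] Matrix κ₂ κ₂ ℚ) :
    Matrix ι ι ℚ →ₗ[ℚ] Matrix (κ₁ ⊕ κ₂) (κ₁ ⊕ κ₂) ℚ where
  toFun A := blk (E₁ A) (E₂ A)
  map_add' A A' := by rw [map_add, map_add, blk_add]
  map_smul' c A := by rw [map_smul, map_smul, blk_smul, RingHom.id_apply]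

theorem ext_sumE (F : Type) [Field F] [Algebra ℚ F] (E₁ : Matrix ι ι ℚ →ₗ[ℚ] Matrix κ₁ κ₁ ℚ)
    (E₂ : Matrix ι ι ℚ →ₗ[ℚ] Matrix κ₂ κ₂ ℚ) (L : Matrix ι ι F) :
    ext F (sumE E₁ E₂) L = blk (ext F E₁ L) (ext F E₂ L) := by
  apply mat_ext
  intro φ
  rw [ext_map]
  show blk (E₁ (L.map φ)) (E₂ (L.map φ)) = _
  rw [← ext_map, ← ext_map]
  unfold blk
  rw [Matrix.fromBlocks_map]
  simp

theorem lie_sumE {S : Submodule ℚ (Matrix ι ι ℚ)} {E₁ : Matrix ι ι ℚ →ₗ[ℚ] Matrix κ₁ κ₁ ℚ}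
    {E₂ : Matrix ι ι ℚ →ₗ[ℚ] Matrix κ₂ κ₂ ℚ} (h₁ : LieOn S E₁) (h₂ : LieOn S E₂) :
    LieOn S (sumE E₁ E₂) := by
  intro x hx y hy
  show blk (E₁ (x * y - y * x)) (E₂ (x * y - y * x)) =
    blk (E₁ x) (E₂ x) * blk (E₁ y) (E₂ y) - blk (E₁ y) (E₂ y) * blk (E₁ x) (E₂ x)
  rw [h₁ x hx y hy, h₂ x hx y hy, blk_sub, blk_mul, blk_mul]

variable {ℓ : ℕ} [Fact ℓ.Prime]

theorem near_blk {N : ℕ} {A : Matrix κ₁ κ₁ ℚ_[ℓ]} {B : Matrix κ₂ κ₂ ℚ_[ℓ]} (hA : NearOne N A)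
    (hB : NearOne N B) : NearOne N (blk A B) := by
  have h0 : (0 : ℝ) ≤ ((ℓ : ℝ) ^ N)⁻¹ := by positivity
  intro i j
  rw [← blk_one, ← blk_sub]
  rcases i with i | i <;> rcases j with j | j
  · exact hA i j
  · show ‖(0 : ℚ_[ℓ])‖ ≤ _
    rw [norm_zero]
    exact h0
  · show ‖(0 : ℚ_[ℓ])‖ ≤ _
    rw [norm_zero]
    exact h0
  · exact hB i j

theorem log_blk {g L : Matrix κ₁ κ₁ ℚ_[ℓ]} {g' L' : Matrix κ₂ κ₂ ℚ_[ℓ]} (h : IsLog g L)
    (h' : IsLog g' L') : IsLog (blk g g') (blk L L') := by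
  have h1 : Tendsto (fun n : ℕ => blk (((ℓ : ℚ_[ℓ]) ^ n)⁻¹ • (g ^ ℓ ^ n - 1))
      (((ℓ : ℚ_[ℓ]) ^ n)⁻¹ • (g' ^ ℓ ^ n - 1))) atTop (𝓝 (blk L L')) := by
    have hc : Continuous fun p : Matrix κ₁ κ₁ ℚ_[ℓ] × Matrix κ₂ κ₂ ℚ_[ℓ] => blk p.1 p.2 :=
      Continuous.matrix_fromBlocks continuous_fst continuous_const continuous_const continuous_snd
    exact (hc.tendsto (L, L')).comp (h.prodMk_nhds h')
  refine h1.congr fun n => ?_
  rw [blk_smul, blk_sub, blk_one, blk_pow]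

end sum

theorem good_blk {ι κ₁ κ₂ Γ : Type} [Fintype ι] [DecidableEq ι] [Fintype κ₁] [DecidableEq κ₁]
    [Fintype κ₂] [DecidableEq κ₂] [Group Γ] {ℓ : ℕ} [Fact ℓ.Prime] {D D' : Matrix ι ι ℂ}
    {g : Γ → Matrix ι ι ℚ_[ℓ]} {h₁ : ℂ → Matrix κ₁ κ₁ ℂ} {h₂ : ℂ → Matrix κ₂ κ₂ ℂ}
    {ρ₁ : Γ → Matrix κ₁ κ₁ ℚ_[ℓ]} {ρ₂ : Γ → Matrix κ₂ κ₂ ℚ_[ℓ]} (hM : GoodR D D' g h₁ ρ₁)
    (hN : GoodR D D' g h₂ ρ₂) :
    GoodR D D' g (fun z => blk (h₁ z) (h₂ z)) (fun σ => blk (ρ₁ σ) (ρ₂ σ)) := by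
  obtain ⟨E₁, hL₁, hG₁, C₁, _, _, a₁, b₁, e₁, hm₁, hs₁, hh₁, hD₁, hD'₁⟩ := hM
  obtain ⟨E₂, hL₂, hG₂, C₂, _, _, a₂, b₂, e₂, hm₂, hs₂, hh₂, hD₂, hD'₂⟩ := hN
  refine ⟨sumE E₁ E₂, lie_sumE hL₁ hL₂, ?_, C₁ ⊕ C₂, inferInstance, inferInstance,
    Sum.elim a₁ a₂, Sum.elim b₁ b₂,
    Sum.elim (fun c => blk (e₁ c) 0) (fun c => blk 0 (e₂ c)), ?_, ?_, ?_, ?_, ?_⟩
  · intro n
    obtain ⟨Δ₁, hf₁, k₁⟩ := hG₁ n
    obtain ⟨Δ₂, hf₂, k₂⟩ := hG₂ n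
    refine ⟨Δ₁ ⊓ Δ₂, inferInstance, fun σ hσ => ⟨?_, fun L hL => ?_⟩⟩
    · exact near_blk (k₁ σ hσ.1).1 (k₂ σ hσ.2).1
    · rw [ext_sumE]
      exact log_blk ((k₁ σ hσ.1).2 L hL) ((k₂ σ hσ.2).2 L hL)
  · rintro (c | c) (c' | c')
    · show blk (e₁ c) 0 * blk (e₁ c') 0 = if Sum.inl c = Sum.inl c' then blk (e₁ c) 0 else 0
      rw [← blk_mul, hm₁, mul_zero]
      by_cases h : c = c'
      · rw [if_pos h, if_pos (congrArg Sum.inl h)]
      · rw [if_neg h, if_neg fun h' => h (Sum.inl.inj h')]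
        exact Matrix.fromBlocks_zero
    · show blk (e₁ c) 0 * blk 0 (e₂ c') = if Sum.inl c = Sum.inr c' then blk (e₁ c) 0 else 0
      rw [← blk_mul, mul_zero, zero_mul, if_neg (by simp)]
      exact Matrix.fromBlocks_zero
    · show blk 0 (e₂ c) * blk (e₁ c') 0 = if Sum.inr c = Sum.inl c' then blk 0 (e₂ c) else 0
      rw [← blk_mul, mul_zero, zero_mul, if_neg (by simp)]
      exact Matrix.fromBlocks_zero
    · show blk 0 (e₂ c) * blk 0 (e₂ c') = if Sum.inr c = Sum.inr c' then blk 0 (e₂ c) else 0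
      rw [← blk_mul, hm₂, mul_zero]
      by_cases h : c = c'
      · rw [if_pos h, if_pos (congrArg Sum.inr h)]
      · rw [if_neg h, if_neg fun h' => h (Sum.inr.inj h')]
        exact Matrix.fromBlocks_zero
  · rw [Fintype.sum_sum_type]
    show ∑ c, blk (e₁ c) 0 + ∑ c, blk 0 (e₂ c) = _
    rw [blk_sum, blk_sum, ← blk_add, hs₁, hs₂]
    simp only [Finset.sum_const_zero, add_zero, zero_add]
    exact blk_one
  · intro z hz
    rw [Fintype.sum_sum_type]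
    show blk (h₁ z) (h₂ z) = ∑ c, (z ^ (-a₁ c) * starRingEnd ℂ z ^ (-b₁ c)) • blk (e₁ c) 0 +
      ∑ c, (z ^ (-a₂ c) * starRingEnd ℂ z ^ (-b₂ c)) • blk 0 (e₂ c)
    simp only [← blk_smul, smul_zero]
    rw [blk_sum, blk_sum, ← blk_add, ← hh₁ z hz, ← hh₂ z hz]
    simp only [Finset.sum_const_zero, add_zero, zero_add]
  · rw [ext_sumE, Fintype.sum_sum_type, hD₁, hD₂]
    show _ = ∑ c, (a₁ c : ℂ) • blk (e₁ c) 0 + ∑ c, (a₂ c : ℂ) • blk 0 (e₂ c)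
    simp only [← blk_smul, smul_zero]
    rw [blk_sum, blk_sum, ← blk_add]
    simp only [Finset.sum_const_zero, add_zero, zero_add]
  · rw [ext_sumE, Fintype.sum_sum_type, hD'₁, hD'₂]
    show _ = ∑ c, (b₁ c : ℂ) • blk (e₁ c) 0 + ∑ c, (b₂ c : ℂ) • blk 0 (e₂ c)
    simp only [← blk_smul, smul_zero]
    rw [blk_sum, blk_sum, ← blk_add]
    simp only [Finset.sum_const_zero, add_zero, zero_add]

theorem t_SUM : S_SUM := by
  intro ℓ _ Γ _ T _ _ d B W G M N hM hN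
  exact good_blk hM hN

/-! ## Duals -/

section dual

variable {ι κ : Type} [Fintype ι] [DecidableEq ι] [Fintype κ] [DecidableEq κ]

/-- The dual of a linear map to matrices. -/
def dualE (E : Matrix ι ι ℚ →ₗ[ℚ] Matrix κ κ ℚ) : Matrix ι ι ℚ →ₗ[ℚ] Matrix κ κ ℚ where
  toFun A := -(E A)ᵀ
  map_add' A A' := by rw [map_add, Matrix.transpose_add, neg_add]
  map_smul' c A := by rw [map_smul, Matrix.transpose_smul, RingHom.id_apply, smul_neg]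

theorem ext_dualE (F : Type) [Field F] [Algebra ℚ F] (E : Matrix ι ι ℚ →ₗ[ℚ] Matrix κ κ ℚ)
    (L : Matrix ι ι F) : ext F (dualE E) L = -(ext F E L)ᵀ := by
  apply mat_ext
  intro φ
  rw [ext_map]
  show -(E (L.map φ))ᵀ = _
  rw [← ext_map]
  ext i j
  exact (map_neg φ _).symm

theorem lie_dualE {S : Submodule ℚ (Matrix ι ι ℚ)} {E : Matrix ι ι ℚ →ₗ[ℚ] Matrix κ κ ℚ}
    (h : LieOn S E) : LieOn S (dualE E) := by
  intro x hx y hy
  show -(E (x * y - y * x))ᵀ = -(E x)ᵀ * -(E y)ᵀ - -(E y)ᵀ * -(E x)ᵀ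
  rw [h x hx y hy, Matrix.transpose_sub, Matrix.transpose_mul, Matrix.transpose_mul, neg_mul_neg,
    neg_mul_neg, neg_sub]

variable {ℓ : ℕ} [Fact ℓ.Prime]

/-- The logarithm of the inverse. -/
theorem log_inv {g g' L : Matrix κ κ ℚ_[ℓ]} (h : IsLog g L) (h' : g' * g = 1) :
    IsLog g' (-L) := by
  have h1 := log_tendsto_one h
  have h2 : g * g' = 1 := mul_eq_one_comm.1 h'
  have hcomm : Commute g' g := by
    show g' * g = g * g'
    rw [h', h2]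
  have h3 : ∀ n : ℕ, g' ^ n * g ^ n = 1 := fun n => by
    rw [← hcomm.mul_pow, h', one_pow]
  have h4 : Tendsto (fun n : ℕ => g' ^ ℓ ^ n) atTop (𝓝 1) := by
    have h5 : Tendsto (fun n : ℕ => ((g ^ ℓ ^ n).det)⁻¹ • (g ^ ℓ ^ n).adjugate) atTop
        (𝓝 (((1 : Matrix κ κ ℚ_[ℓ]).det)⁻¹ • (1 : Matrix κ κ ℚ_[ℓ]).adjugate)) := by
      refine Filter.Tendsto.smul (Filter.Tendsto.inv₀ ?_ (by simp)) ?_
      · exact ((Continuous.matrix_det continuous_id).tendsto 1).comp h1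
      · exact ((Continuous.matrix_adjugate continuous_id).tendsto 1).comp h1
    rw [Matrix.det_one, inv_one, one_smul, Matrix.adjugate_one] at h5
    refine h5.congr fun n => ?_
    have h6 : (g ^ ℓ ^ n).det ≠ 0 := by
      intro h0
      have h7 := congrArg Matrix.det (h3 (ℓ ^ n))
      rw [Matrix.det_mul, h0, mul_zero, Matrix.det_one] at h7
      exact zero_ne_one h7
    calc ((g ^ ℓ ^ n).det)⁻¹ • (g ^ ℓ ^ n).adjugate
        = (g' ^ ℓ ^ n * g ^ ℓ ^ n) * (((g ^ ℓ ^ n).det)⁻¹ • (g ^ ℓ ^ n).adjugate) := by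
          rw [h3, one_mul]
      _ = g' ^ ℓ ^ n := by
          rw [mul_assoc, mul_smul_comm, Matrix.mul_adjugate, smul_smul, inv_mul_cancel₀ h6,
            one_smul, mul_one]
  have h8 : Tendsto (fun n : ℕ => -(g' ^ ℓ ^ n * (((ℓ : ℚ_[ℓ]) ^ n)⁻¹ • (g ^ ℓ ^ n - 1)))) atTop
      (𝓝 (-(1 * L))) := (h4.mul h).neg
  rw [one_mul] at h8
  refine h8.congr fun n => ?_
  rw [mul_smul_comm, mul_sub, h3, mul_one, ← smul_neg, neg_sub]

theorem log_transpose {g L : Matrix κ κ ℚ_[ℓ]} (h : IsLog g L) : IsLog gᵀ Lᵀ := by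
  have hc : Continuous fun A : Matrix κ κ ℚ_[ℓ] => Aᵀ := Continuous.matrix_transpose continuous_id
  refine ((hc.tendsto L).comp h).congr fun n => ?_
  show (((ℓ : ℚ_[ℓ]) ^ n)⁻¹ • (g ^ ℓ ^ n - 1))ᵀ = _
  rw [Matrix.transpose_smul, Matrix.transpose_sub, Matrix.transpose_pow, Matrix.transpose_one]

theorem near_transpose {N : ℕ} {g : Matrix κ κ ℚ_[ℓ]} (h : NearOne N g) : NearOne N gᵀ := by
  intro i j
  have h1 : (gᵀ - 1) i j = (g - 1) j i := by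
    rw [← Matrix.transpose_one, ← Matrix.transpose_sub, Matrix.transpose_apply]
    rw [Matrix.transpose_one]
  rw [h1]
  exact h j i

end dual

theorem good_dual {ι κ Γ : Type} [Fintype ι] [DecidableEq ι] [Fintype κ] [DecidableEq κ]
    [Group Γ] {ℓ : ℕ} [Fact ℓ.Prime] {D D' : Matrix ι ι ℂ} {g : Γ → Matrix ι ι ℚ_[ℓ]}
    {h₁ : ℂ → Matrix κ κ ℂ} {ρ : Γ →* Matrix κ κ ℚ_[ℓ]} (hM : GoodR D D' g h₁ (fun σ => ρ σ)) :
    GoodR D D' g (fun z => ((h₁ z)⁻¹)ᵀ) (fun σ => (ρ σ⁻¹)ᵀ) := by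
  obtain ⟨E, hL, hG, C, _, _, a, b, e, hm, hs, hh, hD, hD'⟩ := hM
  refine ⟨dualE E, lie_dualE hL, ?_, C, inferInstance, inferInstance, fun c => -a c,
    fun c => -b c, fun c => (e c)ᵀ, ?_, ?_, ?_, ?_, ?_⟩
  · intro n
    obtain ⟨Δ, hf, h⟩ := hG n
    refine ⟨Δ, hf, fun σ hσ => ⟨?_, fun L hσL => ?_⟩⟩
    · exact near_transpose (h σ⁻¹ (Δ.inv_mem hσ)).1
    · rw [ext_dualE, ← Matrix.transpose_neg]
      have h1 : ρ σ⁻¹ * ρ σ = 1 := by rw [← map_mul, inv_mul_cancel, map_one]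
      exact log_transpose (log_inv ((h σ hσ).2 L hσL) h1)
  · intro c c'
    show (e c)ᵀ * (e c')ᵀ = if c = c' then (e c)ᵀ else 0
    rw [← Matrix.transpose_mul, hm]
    by_cases h : c = c'
    · rw [if_pos h, if_pos h.symm, h]
    · rw [if_neg h, if_neg fun h' => h h'.symm, Matrix.transpose_zero]
  · show ∑ c, (e c)ᵀ = 1
    rw [← Matrix.transpose_sum, hs, Matrix.transpose_one]
  · intro z hz
    have hz' : starRingEnd ℂ z ≠ 0 := (map_ne_zero _).2 hz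
    show ((h₁ z)⁻¹)ᵀ = ∑ c, (z ^ (-(-a c)) * starRingEnd ℂ z ^ (-(-b c))) • (e c)ᵀ
    have h1 : (h₁ z)⁻¹ = ∑ c, (z ^ (-(-a c)) * starRingEnd ℂ z ^ (-(-b c))) • e c := by
      apply Matrix.inv_eq_right_inv
      rw [hh z hz, Finset.sum_mul_sum]
      calc ∑ c, ∑ c', (z ^ (-a c) * starRingEnd ℂ z ^ (-b c)) • e c *
            (z ^ (-(-a c')) * starRingEnd ℂ z ^ (-(-b c'))) • e c'
          = ∑ c, e c := by
            refine Finset.sum_congr rfl fun c _ => ?_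
            rw [Finset.sum_eq_single c]
            · rw [smul_mul_smul_comm, hm, if_pos rfl]
              have h2 : z ^ (-a c) * starRingEnd ℂ z ^ (-b c) *
                  (z ^ (-(-a c)) * starRingEnd ℂ z ^ (-(-b c))) = 1 := by
                rw [mul_mul_mul_comm, ← zpow_add₀ hz, ← zpow_add₀ hz', add_neg_cancel,
                  add_neg_cancel, zpow_zero, zpow_zero, mul_one]
              rw [h2, one_smul]
            · intro c' _ hc'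
              rw [smul_mul_smul_comm, hm, if_neg (Ne.symm hc'), smul_zero]
            · intro h
              exact absurd (Finset.mem_univ c) h
        _ = 1 := hs
    rw [h1, Matrix.transpose_sum]
    simp only [Matrix.transpose_smul]
  · rw [ext_dualE, hD, Matrix.transpose_sum, ← Finset.sum_neg_distrib]
    refine Finset.sum_congr rfl fun c _ => ?_
    rw [Matrix.transpose_smul, Int.cast_neg, neg_smul]
  · rw [ext_dualE, hD', Matrix.transpose_sum, ← Finset.sum_neg_distrib]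
    refine Finset.sum_congr rfl fun c _ => ?_
    rw [Matrix.transpose_smul, Int.cast_neg, neg_smul]

theorem t_DUAL : S_DUAL := by
  intro ℓ _ Γ _ T _ _ d B W G M hM
  exact good_dual (ρ := M.ρ) hM

end

end Pool.Agent.Run7.h483.MT
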