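import Pool.Agent.Run7.h483.MT.P11c

/-!
# Project MT457, piece P11d: `Good` is closed under tensor products
-/

set_option autoImplicit false
set_option linter.unusedSectionVars false

namespace Pool.Agent.Run7.h483.MT

open Matrix Filter Topology
open Run7.h457.MT Run7.h615.MT
open Run7.h475.MT (ext_map)

noncomputable section

section tensor

variable {ι κ₁ κ₂ : Type} [Fintype ι] [DecidableEq ι] [Fintype κ₁] [DecidableEq κ₁]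
  [Fintype κ₂] [DecidableEq κ₂]

/-- The tensor product of two matrices. -/
def tns {R : Type} [Mul R] (A : Matrix κ₁ κ₁ R) (B : Matrix κ₂ κ₂ R) :
    Matrix (κ₁ × κ₂) (κ₁ × κ₂) R :=
  Matrix.kroneckerMap (fun x y => x * y) A B

theorem tns_apply {R : Type} [Mul R] (A : Matrix κ₁ κ₁ R) (B : Matrix κ₂ κ₂ R) (i j : κ₁ × κ₂) :
    tns A B i j = A i.1 j.1 * B i.2 j.2 := rfl

variable {F : Type} [Field F]

theorem tns_add_left (A A' : Matrix κ₁ κ₁ F) (B : Matrix κ₂ κ₂ F) :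
    tns (A + A') B = tns A B + tns A' B := by
  ext i j
  exact add_mul _ _ _

theorem tns_add_right (A : Matrix κ₁ κ₁ F) (B B' : Matrix κ₂ κ₂ F) :
    tns A (B + B') = tns A B + tns A B' := by
  ext i j
  exact mul_add _ _ _

theorem tns_sub_left (A A' : Matrix κ₁ κ₁ F) (B : Matrix κ₂ κ₂ F) :
    tns (A - A') B = tns A B - tns A' B := by
  ext i j
  exact sub_mul _ _ _

theorem tns_sub_right (A : Matrix κ₁ κ₁ F) (B B' : Matrix κ₂ κ₂ F) :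
    tns A (B - B') = tns A B - tns A B' := by
  ext i j
  exact mul_sub _ _ _

theorem tns_smul_left (c : F) (A : Matrix κ₁ κ₁ F) (B : Matrix κ₂ κ₂ F) :
    tns (c • A) B = c • tns A B := by
  ext i j
  exact mul_assoc _ _ _

theorem tns_smul_right (c : F) (A : Matrix κ₁ κ₁ F) (B : Matrix κ₂ κ₂ F) :
    tns A (c • B) = c • tns A B := by
  ext i j
  exact mul_left_comm _ _ _

theorem tns_zero_left (B : Matrix κ₂ κ₂ F) : tns (0 : Matrix κ₁ κ₁ F) B = 0 := by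
  ext i j
  exact zero_mul _

theorem tns_zero_right (A : Matrix κ₁ κ₁ F) : tns A (0 : Matrix κ₂ κ₂ F) = 0 := by
  ext i j
  exact mul_zero _

theorem tns_mul (A A' : Matrix κ₁ κ₁ F) (B B' : Matrix κ₂ κ₂ F) :
    tns A B * tns A' B' = tns (A * A') (B * B') :=
  (Matrix.mul_kronecker_mul A A' B B').symm

theorem tns_one : tns (1 : Matrix κ₁ κ₁ F) (1 : Matrix κ₂ κ₂ F) = 1 :=
  Matrix.one_kronecker_one

theorem tns_pow (A : Matrix κ₁ κ₁ F) (B : Matrix κ₂ κ₂ F) (n : ℕ) :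
    tns A B ^ n = tns (A ^ n) (B ^ n) := by
  induction n with
  | zero => rw [pow_zero, pow_zero, pow_zero, tns_one]
  | succ n ih => rw [pow_succ, pow_succ, pow_succ, ih, tns_mul]

theorem tns_sum_left {C : Type} [Fintype C] (f : C → Matrix κ₁ κ₁ F) (B : Matrix κ₂ κ₂ F) :
    tns (∑ c, f c) B = ∑ c, tns (f c) B := by
  classical
  induction (Finset.univ : Finset C) using Finset.induction_on with
  | empty => exact tns_zero_left B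
  | insert c s hc ih => rw [Finset.sum_insert hc, Finset.sum_insert hc, tns_add_left, ih]

theorem tns_sum_right {C : Type} [Fintype C] (A : Matrix κ₁ κ₁ F) (f : C → Matrix κ₂ κ₂ F) :
    tns A (∑ c, f c) = ∑ c, tns A (f c) := by
  classical
  induction (Finset.univ : Finset C) using Finset.induction_on with
  | empty => exact tns_zero_right A
  | insert c s hc ih => rw [Finset.sum_insert hc, Finset.sum_insert hc, tns_add_right, ih]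

theorem tns_sum_sum {C₁ C₂ : Type} [Fintype C₁] [Fintype C₂] (f : C₁ → Matrix κ₁ κ₁ F)
    (g : C₂ → Matrix κ₂ κ₂ F) :
    tns (∑ c, f c) (∑ c, g c) = ∑ c : C₁ × C₂, tns (f c.1) (g c.2) := by
  rw [tns_sum_left, Fintype.sum_prod_type]
  refine Finset.sum_congr rfl fun c _ => ?_
  exact tns_sum_right _ _

/-- The map `E₁ ⊗ 1 + 1 ⊗ E₂`. -/
def tnsE (E₁ : Matrix ι ι ℚ →ₗ[ℚ] Matrix κ₁ κ₁ ℚ) (E₂ : Matrix ι ι ℚ →ₗ[ℚ] Matrix κ₂ κ₂ ℚ) :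
    Matrix ι ι ℚ →ₗ[ℚ] Matrix (κ₁ × κ₂) (κ₁ × κ₂) ℚ where
  toFun A := tns (E₁ A) 1 + tns 1 (E₂ A)
  map_add' A A' := by
    rw [map_add, map_add, tns_add_left, tns_add_right]
    abel
  map_smul' c A := by
    rw [map_smul, map_smul, tns_smul_left, tns_smul_right, RingHom.id_apply, smul_add]

theorem one_map [Algebra ℚ F] (i j : κ₁) (x : F) (φ : F →ₗ[ℚ] ℚ) :
    φ (x * (1 : Matrix κ₁ κ₁ F) i j) = φ x * (1 : Matrix κ₁ κ₁ ℚ) i j := by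
  rw [Matrix.one_apply, Matrix.one_apply]
  split_ifs
  · rw [mul_one, mul_one]
  · rw [mul_zero, mul_zero, map_zero]

theorem ext_tnsE [Algebra ℚ F] (E₁ : Matrix ι ι ℚ →ₗ[ℚ] Matrix κ₁ κ₁ ℚ)
    (E₂ : Matrix ι ι ℚ →ₗ[ℚ] Matrix κ₂ κ₂ ℚ) (L : Matrix ι ι F) :
    ext F (tnsE E₁ E₂) L = tns (ext F E₁ L) 1 + tns 1 (ext F E₂ L) := by
  apply mat_ext
  intro φ
  rw [ext_map]
  show tns (E₁ (L.map φ)) 1 + tns 1 (E₂ (L.map φ)) = _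
  rw [← ext_map, ← ext_map]
  ext i j
  rw [Matrix.map_apply, Matrix.add_apply, Matrix.add_apply, map_add, tns_apply, tns_apply,
    tns_apply, tns_apply, one_map, mul_comm ((1 : Matrix κ₁ κ₁ F) i.1 j.1), one_map,
    mul_comm ((1 : Matrix κ₁ κ₁ ℚ) i.1 j.1)]
  rfl

theorem tns_bracket (x y : Matrix κ₁ κ₁ F) (x' y' : Matrix κ₂ κ₂ F) :
    tns (x * y - y * x) 1 + tns 1 (x' * y' - y' * x') =
      (tns x 1 + tns 1 x') * (tns y 1 + tns 1 y') -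
        (tns y 1 + tns 1 y') * (tns x 1 + tns 1 x') := by
  rw [add_mul, mul_add, mul_add, add_mul, mul_add, mul_add, tns_mul, tns_mul, tns_mul, tns_mul,
    tns_mul, tns_mul, tns_mul, tns_mul, tns_sub_left, tns_sub_right]
  simp only [one_mul, mul_one]
  abel

theorem lie_tnsE {S : Submodule ℚ (Matrix ι ι ℚ)} {E₁ : Matrix ι ι ℚ →ₗ[ℚ] Matrix κ₁ κ₁ ℚ}
    {E₂ : Matrix ι ι ℚ →ₗ[ℚ] Matrix κ₂ κ₂ ℚ} (h₁ : LieOn S E₁) (h₂ : LieOn S E₂) :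
    LieOn S (tnsE E₁ E₂) := by
  intro x hx y hy
  show tns (E₁ (x * y - y * x)) 1 + tns 1 (E₂ (x * y - y * x)) =
    (tns (E₁ x) 1 + tns 1 (E₂ x)) * (tns (E₁ y) 1 + tns 1 (E₂ y)) -
      (tns (E₁ y) 1 + tns 1 (E₂ y)) * (tns (E₁ x) 1 + tns 1 (E₂ x))
  rw [h₁ x hx y hy, h₂ x hx y hy, tns_bracket]

variable {ℓ : ℕ} [Fact ℓ.Prime]

theorem norm_one_entry (i j : κ₁) : ‖(1 : Matrix κ₁ κ₁ ℚ_[ℓ]) i j‖ ≤ 1 := by
  rw [Matrix.one_apply]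
  split_ifs
  · rw [norm_one]
  · rw [norm_zero]
    exact zero_le_one

theorem near_entry {N : ℕ} {A : Matrix κ₁ κ₁ ℚ_[ℓ]} (hA : NearOne N A) (i j : κ₁) :
    ‖A i j‖ ≤ 1 := by
  have h1 : A i j = (A - 1) i j + (1 : Matrix κ₁ κ₁ ℚ_[ℓ]) i j := by
    rw [Matrix.sub_apply, sub_add_cancel]
  have h2 : ((ℓ : ℝ) ^ N)⁻¹ ≤ 1 := by
    apply inv_le_one_of_one_le₀
    apply one_le_pow₀
    exact_mod_cast (Fact.out : ℓ.Prime).one_lt.le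
  rw [h1]
  exact (Padic.nonarchimedean _ _).trans (max_le ((hA i j).trans h2) (norm_one_entry i j))

theorem near_tns {N : ℕ} {A : Matrix κ₁ κ₁ ℚ_[ℓ]} {B : Matrix κ₂ κ₂ ℚ_[ℓ]} (hA : NearOne N A)
    (hB : NearOne N B) : NearOne N (tns A B) := by
  have h0 : (0 : ℝ) ≤ ((ℓ : ℝ) ^ N)⁻¹ := by positivity
  intro i j
  have h1 : tns A B - 1 = tns (A - 1) B + tns 1 (B - 1) := by
    rw [tns_sub_left, tns_sub_right, tns_one]
    abel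
  rw [h1, Matrix.add_apply, tns_apply, tns_apply]
  refine (Padic.nonarchimedean _ _).trans (max_le ?_ ?_)
  · rw [norm_mul]
    calc ‖(A - 1) i.1 j.1‖ * ‖B i.2 j.2‖ ≤ ((ℓ : ℝ) ^ N)⁻¹ * 1 :=
          mul_le_mul (hA _ _) (near_entry hB _ _) (norm_nonneg _) h0
      _ = _ := mul_one _
  · rw [norm_mul]
    calc ‖(1 : Matrix κ₁ κ₁ ℚ_[ℓ]) i.1 j.1‖ * ‖(B - 1) i.2 j.2‖ ≤ 1 * ((ℓ : ℝ) ^ N)⁻¹ :=
          mul_le_mul (norm_one_entry _ _) (hB _ _) (norm_nonneg _) zero_le_one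
      _ = _ := one_mul _

theorem log_tns_left {g L : Matrix κ₁ κ₁ ℚ_[ℓ]} (h : IsLog g L) :
    IsLog (tns g (1 : Matrix κ₂ κ₂ ℚ_[ℓ])) (tns L 1) := by
  refine tendsto_pi_nhds.2 fun i => tendsto_pi_nhds.2 fun j => ?_
  have h1 := (tendsto_pi_nhds.1 ((tendsto_pi_nhds.1 h) i.1)) j.1
  refine (h1.mul_const ((1 : Matrix κ₂ κ₂ ℚ_[ℓ]) i.2 j.2)).congr fun n => ?_
  rw [← tns_apply (((ℓ : ℚ_[ℓ]) ^ n)⁻¹ • (g ^ ℓ ^ n - 1)) (1 : Matrix κ₂ κ₂ ℚ_[ℓ])]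
  rw [tns_pow, one_pow, tns_smul_left, tns_sub_left, tns_one]

theorem log_tns_right {g L : Matrix κ₂ κ₂ ℚ_[ℓ]} (h : IsLog g L) :
    IsLog (tns (1 : Matrix κ₁ κ₁ ℚ_[ℓ]) g) (tns 1 L) := by
  refine tendsto_pi_nhds.2 fun i => tendsto_pi_nhds.2 fun j => ?_
  have h1 := (tendsto_pi_nhds.1 ((tendsto_pi_nhds.1 h) i.2)) j.2
  refine (h1.const_mul ((1 : Matrix κ₁ κ₁ ℚ_[ℓ]) i.1 j.1)).congr fun n => ?_
  rw [← tns_apply (1 : Matrix κ₁ κ₁ ℚ_[ℓ]) (((ℓ : ℚ_[ℓ]) ^ n)⁻¹ • (g ^ ℓ ^ n - 1))]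
  rw [tns_pow, one_pow, tns_smul_right, tns_sub_right, tns_one]

theorem log_tns {g L : Matrix κ₁ κ₁ ℚ_[ℓ]} {g' L' : Matrix κ₂ κ₂ ℚ_[ℓ]} (h : IsLog g L)
    (h' : IsLog g' L') : IsLog (tns g g') (tns L 1 + tns 1 L') := by
  have h1 : tns g g' = tns g 1 * tns 1 g' := by rw [tns_mul, mul_one, one_mul]
  rw [h1]
  refine log_mul (log_tns_left h) (log_tns_right h') ?_
  show tns g 1 * tns 1 g' = tns 1 g' * tns g 1
  rw [tns_mul, tns_mul, mul_one, one_mul, mul_one, one_mul]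

end tensor

theorem good_tns {ι κ₁ κ₂ Γ : Type} [Fintype ι] [DecidableEq ι] [Fintype κ₁] [DecidableEq κ₁]
    [Fintype κ₂] [DecidableEq κ₂] [Group Γ] {ℓ : ℕ} [Fact ℓ.Prime] {D D' : Matrix ι ι ℂ}
    {g : Γ → Matrix ι ι ℚ_[ℓ]} {h₁ : ℂ → Matrix κ₁ κ₁ ℂ} {h₂ : ℂ → Matrix κ₂ κ₂ ℂ}
    {ρ₁ : Γ → Matrix κ₁ κ₁ ℚ_[ℓ]} {ρ₂ : Γ → Matrix κ₂ κ₂ ℚ_[ℓ]} (hM : GoodR D D' g h₁ ρ₁)
    (hN : GoodR D D' g h₂ ρ₂) :
    GoodR D D' g (fun z => tns (h₁ z) (h₂ z)) (fun σ => tns (ρ₁ σ) (ρ₂ σ)) := by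
  obtain ⟨E₁, hL₁, hG₁, C₁, _, _, a₁, b₁, e₁, hm₁, hs₁, hh₁, hD₁, hD'₁⟩ := hM
  obtain ⟨E₂, hL₂, hG₂, C₂, _, _, a₂, b₂, e₂, hm₂, hs₂, hh₂, hD₂, hD'₂⟩ := hN
  have key : ∀ (x : C₁ → ℤ) (y : C₂ → ℤ), tns (∑ c, (x c : ℂ) • e₁ c) 1 +
      tns 1 (∑ c, (y c : ℂ) • e₂ c) = ∑ c : C₁ × C₂, ((x c.1 + y c.2 : ℤ) : ℂ) •
        tns (e₁ c.1) (e₂ c.2) := by
    intro x y
    conv_lhs => rw [← hs₁, ← hs₂]
    rw [tns_sum_sum, tns_sum_sum, ← Finset.sum_add_distrib]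
    refine Finset.sum_congr rfl fun c _ => ?_
    rw [tns_smul_left, tns_smul_right, Int.cast_add, add_smul]
  refine ⟨tnsE E₁ E₂, lie_tnsE hL₁ hL₂, ?_, C₁ × C₂, inferInstance, inferInstance,
    fun c => a₁ c.1 + a₂ c.2, fun c => b₁ c.1 + b₂ c.2, fun c => tns (e₁ c.1) (e₂ c.2),
    ?_, ?_, ?_, ?_, ?_⟩
  · intro n
    obtain ⟨Δ₁, hf₁, k₁⟩ := hG₁ n
    obtain ⟨Δ₂, hf₂, k₂⟩ := hG₂ n
    refine ⟨Δ₁ ⊓ Δ₂, inferInstance, fun σ hσ => ⟨?_, fun L hL => ?_⟩⟩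
    · exact near_tns (k₁ σ hσ.1).1 (k₂ σ hσ.2).1
    · rw [ext_tnsE]
      exact log_tns ((k₁ σ hσ.1).2 L hL) ((k₂ σ hσ.2).2 L hL)
  · rintro ⟨c₁, c₂⟩ ⟨c₁', c₂'⟩
    show tns (e₁ c₁) (e₂ c₂) * tns (e₁ c₁') (e₂ c₂') =
      if (c₁, c₂) = (c₁', c₂') then tns (e₁ c₁) (e₂ c₂) else 0
    rw [tns_mul, hm₁, hm₂]
    by_cases h : c₁ = c₁'
    · by_cases h' : c₂ = c₂'
      · rw [if_pos h, if_pos h', if_pos (by rw [h, h'])]
      · rw [if_neg h', tns_zero_right, if_neg fun h'' => h' (Prod.ext_iff.1 h'').2]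
    · rw [if_neg h, tns_zero_left, if_neg fun h'' => h (Prod.ext_iff.1 h'').1]
  · show ∑ c : C₁ × C₂, tns (e₁ c.1) (e₂ c.2) = _
    rw [← tns_sum_sum, hs₁, hs₂]
    exact tns_one
  · intro z hz
    have hz' : starRingEnd ℂ z ≠ 0 := (map_ne_zero _).2 hz
    show tns (h₁ z) (h₂ z) = ∑ c : C₁ × C₂, (z ^ (-(a₁ c.1 + a₂ c.2)) *
      starRingEnd ℂ z ^ (-(b₁ c.1 + b₂ c.2))) • tns (e₁ c.1) (e₂ c.2)
    rw [hh₁ z hz, hh₂ z hz, tns_sum_sum]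
    refine Finset.sum_congr rfl fun c _ => ?_
    rw [tns_smul_left, tns_smul_right, smul_smul, neg_add, neg_add, zpow_add₀ hz,
      zpow_add₀ hz', mul_mul_mul_comm]
  · rw [ext_tnsE, hD₁, hD₂]
    exact key a₁ a₂
  · rw [ext_tnsE, hD'₁, hD'₂]
    exact key b₁ b₂

theorem t_TENSOR : S_TENSOR := by
  intro ℓ _ Γ _ T _ _ d B W G M N hM hN
  exact good_tns hM hN

end

end Pool.Agent.Run7.h483.MT
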